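import Mathlib

set_option autoImplicit false

/-!
The real Lie algebra `su(2,1)` and the element `i * diag(1,1,-2)`, which is not a single bracket.
-/

namespace Pool.Agent.Work.MP_61cc98_al

open Matrix

attribute [local instance 100] LieRing.ofAssociativeRing

/-- The signature matrix `diag(1,1,-1)`. -/
def J : Matrix (Fin 3) (Fin 3) ℂ := Matrix.diagonal ![1, 1, -1]

lemma J_mul_J : J * J = 1 := by
  unfold J
  rw [Matrix.diagonal_mul_diagonal, ← Matrix.diagonal_one]
  congr 1
  funext i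
  fin_cases i <;> simp

lemma J_conjTranspose : Jᴴ = J := by
  unfold J
  rw [Matrix.diagonal_conjTranspose]
  congr 1
  funext i
  fin_cases i <;> simp

/-- The real Lie algebra `su(2,1)` as a Lie subalgebra of the complex `3 × 3` matrices. -/
def su21 : LieSubalgebra ℝ (Matrix (Fin 3) (Fin 3) ℂ) where
  carrier := {X | Xᴴ * J + J * X = 0 ∧ X.trace = 0}
  add_mem' := by
    rintro X Y ⟨hX, hX'⟩ ⟨hY, hY'⟩
    refine ⟨?_, by rw [Matrix.trace_add, hX', hY', add_zero]⟩
    rw [Matrix.conjTranspose_add, add_mul, mul_add]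
    calc Xᴴ * J + Yᴴ * J + (J * X + J * Y) = (Xᴴ * J + J * X) + (Yᴴ * J + J * Y) := by abel
      _ = 0 := by rw [hX, hY, add_zero]
  zero_mem' := by simp
  smul_mem' := by
    rintro c X ⟨hX, hX'⟩
    refine ⟨?_, by rw [Matrix.trace_smul, hX', smul_zero]⟩
    rw [Matrix.conjTranspose_smul, Matrix.smul_mul, Matrix.mul_smul, star_trivial,
      ← smul_add, hX, smul_zero]
  lie_mem' := by
    rintro X Y ⟨hX, hX'⟩ ⟨hY, hY'⟩
    have hX2 : Xᴴ * J = -(J * X) := eq_neg_of_add_eq_zero_left hX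
    have hY2 : Yᴴ * J = -(J * Y) := eq_neg_of_add_eq_zero_left hY
    refine ⟨?_, by rw [Ring.lie_def, Matrix.trace_sub, Matrix.trace_mul_comm, sub_self]⟩
    rw [Ring.lie_def, Matrix.conjTranspose_sub, Matrix.conjTranspose_mul,
      Matrix.conjTranspose_mul, sub_mul, Matrix.mul_assoc, Matrix.mul_assoc, hX2, hY2]
    rw [Matrix.mul_neg, Matrix.mul_neg, ← Matrix.mul_assoc, ← Matrix.mul_assoc, hX2, hY2]
    noncomm_ring

lemma mem_su21 {X : Matrix (Fin 3) (Fin 3) ℂ} :
    X ∈ su21 ↔ Xᴴ * J + J * X = 0 ∧ X.trace = 0 := Iff.rfl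

instance : FiniteDimensional ℝ su21 :=
  inferInstanceAs (FiniteDimensional ℝ su21.toSubmodule)

/-- The trace form `(x, y) ↦ Re tr(x y)`. -/
noncomputable def form : LinearMap.BilinForm ℝ su21 :=
  LinearMap.mk₂ ℝ (fun x y : su21 =>
      ((x : Matrix (Fin 3) (Fin 3) ℂ) * (y : Matrix (Fin 3) (Fin 3) ℂ)).trace.re)
    (by intro x y z; simp [add_mul])
    (by intro c x y; simp)
    (by intro x y z; simp [mul_add])
    (by intro c x y; simp)

lemma form_apply (x y : su21) : form x y =
    ((x : Matrix (Fin 3) (Fin 3) ℂ) * (y : Matrix (Fin 3) (Fin 3) ℂ)).trace.re := rfl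

lemma conjTranspose_mem {X : Matrix (Fin 3) (Fin 3) ℂ} (hX : X ∈ su21) : Xᴴ ∈ su21 := by
  obtain ⟨h1, h2⟩ := hX
  have hX2 : Xᴴ * J = -(J * X) := eq_neg_of_add_eq_zero_left h1
  refine ⟨?_, ?_⟩
  · rw [Matrix.conjTranspose_conjTranspose]
    have h3 : J * (Xᴴ * J) * J = J * (-(J * X)) * J := by rw [hX2]
    have h4 : J * (Xᴴ * J) * J = J * Xᴴ := by
      rw [Matrix.mul_assoc, Matrix.mul_assoc, J_mul_J, Matrix.mul_one]
    have h5 : J * (-(J * X)) * J = -(X * J) := by
      rw [Matrix.mul_neg, ← Matrix.mul_assoc, J_mul_J, Matrix.one_mul, Matrix.neg_mul]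
    rw [← h4, h3, h5, add_neg_cancel]
  · rw [Matrix.trace_conjTranspose, h2, star_zero]

lemma form_symm (x y : su21) : form x y = form y x := by
  rw [form_apply, form_apply, Matrix.trace_mul_comm]

lemma form_nondeg_aux (x : su21) (h : ∀ y, form x y = 0) : x = 0 := by
  have h1 := h ⟨_, conjTranspose_mem x.2⟩
  rw [form_apply] at h1
  simp only at h1
  have h2 : ((x : Matrix (Fin 3) (Fin 3) ℂ) * (x : Matrix (Fin 3) (Fin 3) ℂ)ᴴ).trace.re =
      ∑ i, ∑ j, Complex.normSq ((x : Matrix (Fin 3) (Fin 3) ℂ) i j) := by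
    simp only [Matrix.trace, Matrix.diag_apply, Matrix.mul_apply, Matrix.conjTranspose_apply,
      Complex.re_sum]
    refine Finset.sum_congr rfl fun i _ => Finset.sum_congr rfl fun j _ => ?_
    rw [Complex.star_def, Complex.mul_conj, Complex.ofReal_re]
  rw [h2] at h1
  have h3 : ∀ i j, (x : Matrix (Fin 3) (Fin 3) ℂ) i j = 0 := by
    intro i j
    have h4 := (Finset.sum_eq_zero_iff_of_nonneg
      (fun i _ => Finset.sum_nonneg (fun j _ => Complex.normSq_nonneg _))).1 h1 i (Finset.mem_univ i)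
    have h5 := (Finset.sum_eq_zero_iff_of_nonneg
      (fun j _ => Complex.normSq_nonneg _)).1 h4 j (Finset.mem_univ j)
    exact Complex.normSq_eq_zero.1 h5
  apply Subtype.ext
  ext i j
  exact h3 i j

lemma form_refl : form.IsRefl := fun x y h => by rw [form_symm]; exact h

lemma form_nondeg : form.Nondegenerate := by
  constructor
  · intro x hx
    exact form_nondeg_aux x hx
  · intro x hx
    exact form_nondeg_aux x (fun y => by rw [form_symm]; exact hx y)

lemma form_inv : form.lieInvariant su21 := by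
  intro x y z
  rw [form_apply, form_apply, LieSubalgebra.coe_bracket, LieSubalgebra.coe_bracket,
    Ring.lie_def, Ring.lie_def, sub_mul, mul_sub, Matrix.trace_sub, Matrix.trace_sub,
    Complex.sub_re, Complex.sub_re]
  rw [Matrix.mul_assoc, Matrix.trace_mul_comm (x : Matrix (Fin 3) (Fin 3) ℂ)
    ((y : Matrix (Fin 3) (Fin 3) ℂ) * (z : Matrix (Fin 3) (Fin 3) ℂ)), Matrix.mul_assoc,
    Matrix.mul_assoc]
  ring

/-- Elements `y` of `su(2,1)` from arbitrary matrices. -/
lemma skew_mem (Y : Matrix (Fin 3) (Fin 3) ℂ) :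
    (Y - J * Yᴴ * J) - ((Y - J * Yᴴ * J).trace / 3) • (1 : Matrix (Fin 3) (Fin 3) ℂ) ∈ su21 := by
  set Z := Y - J * Yᴴ * J with hZ
  have hZJ : Zᴴ * J = -(J * Z) := by
    rw [hZ, Matrix.conjTranspose_sub, Matrix.conjTranspose_mul, Matrix.conjTranspose_mul,
      Matrix.conjTranspose_conjTranspose, J_conjTranspose, sub_mul, mul_sub]
    have e1 : J * (Y * J) * J = J * Y := by
      rw [Matrix.mul_assoc, Matrix.mul_assoc, J_mul_J, Matrix.mul_one]
    have e2 : J * (J * Yᴴ * J) = Yᴴ * J := by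
      rw [← Matrix.mul_assoc, ← Matrix.mul_assoc, J_mul_J, Matrix.one_mul]
    rw [e1, e2, neg_sub]
  have htr : star Z.trace = - Z.trace := by
    have h1 : (Zᴴ * J * J).trace = (-(J * Z) * J).trace := by rw [hZJ]
    rw [Matrix.mul_assoc, J_mul_J, Matrix.mul_one, Matrix.trace_conjTranspose,
      Matrix.neg_mul, Matrix.trace_neg, Matrix.trace_mul_comm, ← Matrix.mul_assoc, J_mul_J,
      Matrix.one_mul] at h1
    exact h1
  constructor
  · rw [Matrix.conjTranspose_sub, Matrix.conjTranspose_smul, Matrix.conjTranspose_one,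
      sub_mul, mul_sub, hZJ]
    have h3 : star (Z.trace / 3) = -(Z.trace / 3) := by
      rw [star_div₀, htr]
      simp
      ring
    rw [h3, Matrix.smul_mul, Matrix.mul_smul, Matrix.one_mul, Matrix.mul_one]
    rw [neg_smul]
    abel
  · rw [Matrix.trace_sub, Matrix.trace_smul, Matrix.trace_one]
    simp

lemma double_bracket {X : Matrix (Fin 3) (Fin 3) ℂ}
    (h : ∀ Y ∈ su21, X * (X * Y - Y * X) - (X * Y - Y * X) * X = 0)
    (Y : Matrix (Fin 3) (Fin 3) ℂ) :
    X * (X * Y - Y * X) - (X * Y - Y * X) * X = 0 := by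
  have key : ∀ Y : Matrix (Fin 3) (Fin 3) ℂ,
      X * (X * (Y - J * Yᴴ * J) - (Y - J * Yᴴ * J) * X)
        - (X * (Y - J * Yᴴ * J) - (Y - J * Yᴴ * J) * X) * X = 0 := by
    intro Y
    have h1 := h _ (skew_mem Y)
    set Z := Y - J * Yᴴ * J with hZ
    have h2 : X * (Z - (Z.trace / 3) • (1 : Matrix (Fin 3) (Fin 3) ℂ)) -
        (Z - (Z.trace / 3) • (1 : Matrix (Fin 3) (Fin 3) ℂ)) * X = X * Z - Z * X := by
      rw [mul_sub, sub_mul, Matrix.mul_smul, Matrix.smul_mul, Matrix.mul_one, Matrix.one_mul]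
      abel
    rw [h2] at h1
    exact h1
  have k1 := key Y
  have k2 := key (Complex.I • Y)
  have e : J * (Complex.I • Y)ᴴ * J = -(Complex.I • (J * Yᴴ * J)) := by
    rw [Matrix.conjTranspose_smul, Matrix.mul_smul, Matrix.smul_mul, Complex.star_def,
      Complex.conj_I, neg_smul]
  rw [e] at k2
  have k3 : Complex.I • (X * (X * (Y + J * Yᴴ * J) - (Y + J * Yᴴ * J) * X)
        - (X * (Y + J * Yᴴ * J) - (Y + J * Yᴴ * J) * X) * X) = 0 := by
    rw [← k2]
    simp only [sub_neg_eq_add, Matrix.mul_sub, Matrix.sub_mul, Matrix.mul_add, Matrix.add_mul,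
      Matrix.mul_smul, Matrix.smul_mul, smul_sub, smul_add]
  have k4 := (smul_eq_zero.1 k3).resolve_left Complex.I_ne_zero
  have k5 : (2 : ℂ) • (X * (X * Y - Y * X) - (X * Y - Y * X) * X) = 0 := by
    have : (2 : ℂ) • (X * (X * Y - Y * X) - (X * Y - Y * X) * X) =
        (X * (X * (Y - J * Yᴴ * J) - (Y - J * Yᴴ * J) * X)
        - (X * (Y - J * Yᴴ * J) - (Y - J * Yᴴ * J) * X) * X) +
        (X * (X * (Y + J * Yᴴ * J) - (Y + J * Yᴴ * J) * X)
        - (X * (Y + J * Yᴴ * J) - (Y + J * Yᴴ * J) * X) * X) := by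
      rw [two_smul]
      noncomm_ring
    rw [this, k1, k4, add_zero]
  exact (smul_eq_zero.1 k5).resolve_left two_ne_zero

lemma scalar_of_double {X : Matrix (Fin 3) (Fin 3) ℂ}
    (h : ∀ Y : Matrix (Fin 3) (Fin 3) ℂ, X * (X * Y - Y * X) - (X * Y - Y * X) * X = 0) :
    (∀ i j, i ≠ j → X i j = 0) ∧ (∀ i j, X i i = X j j) := by
  have hent : ∀ a i j b : Fin 3,
      (X * X) a i * (if j = b then 1 else 0) - 2 * (X a i * X j b) +
        (if a = i then 1 else 0) * (X * X) j b = 0 := by
    intro a i j b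
    have h1 := congrFun (congrFun (h (Matrix.single i j 1)) a) b
    have e : X * (X * Matrix.single i j (1:ℂ) - Matrix.single i j (1:ℂ) * X) -
        (X * Matrix.single i j (1:ℂ) - Matrix.single i j (1:ℂ) * X) * X =
        X * X * Matrix.single i j (1:ℂ) - (X * Matrix.single i j (1:ℂ) * X +
        X * Matrix.single i j (1:ℂ) * X) + Matrix.single i j (1:ℂ) * (X * X) := by
      noncomm_ring
    rw [e] at h1
    simp only [Matrix.add_apply, Matrix.sub_apply, Matrix.zero_apply] at h1
    have e1 : (X * X * Matrix.single i j (1:ℂ)) a b = (X * X) a i * (if j = b then 1 else 0) := by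
      rw [Matrix.mul_apply]
      by_cases hjb : j = b
      · simp [Matrix.single_apply, hjb]
      · simp [Matrix.single_apply, hjb]
    have e2 : (X * Matrix.single i j (1:ℂ) * X) a b = X a i * X j b := by
      rw [Matrix.mul_apply, Finset.sum_eq_single j]
      · rw [Matrix.mul_apply, Finset.sum_eq_single i]
        · simp [Matrix.single_apply]
        · intro c _ hc
          simp [Matrix.single_apply, Ne.symm hc]
        · simp
      · intro c _ hc
        rw [Matrix.mul_apply, Finset.sum_eq_zero, zero_mul]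
        intro d _
        simp [Matrix.single_apply, Ne.symm hc]
      · simp
    have e3 : (Matrix.single i j (1:ℂ) * (X * X)) a b =
        (if a = i then 1 else 0) * (X * X) j b := by
      rw [Matrix.mul_apply, Finset.sum_eq_single j]
      · by_cases hai : a = i
        · simp [Matrix.single_apply, hai]
        · simp [Matrix.single_apply, hai, Ne.symm hai]
      · intro c _ hc
        simp [Matrix.single_apply, Ne.symm hc]
      · simp
    rw [e1, e2, e3] at h1
    linear_combination h1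
  have hoff : ∀ i j, i ≠ j → X i j = 0 := by
    intro i j hij
    have h1 := hent i j i j
    simp only [hij, if_false, mul_zero, zero_sub, zero_mul, add_zero, neg_eq_zero] at h1
    have h2 : X i j * X i j = 0 := by
      rcases mul_eq_zero.1 h1 with h | h
      · norm_num at h
      · exact h
    exact mul_self_eq_zero.1 h2
  refine ⟨hoff, ?_⟩
  have hsq : ∀ i, (X * X) i i = X i i * X i i := by
    intro i
    rw [Matrix.mul_apply]
    rw [Finset.sum_eq_single i]
    · intro j _ hj
      rw [hoff i j (Ne.symm hj), zero_mul]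
    · simp
  intro i j
  have h1 := hent i i j j
  simp only [if_true, mul_one, one_mul] at h1
  rw [hsq, hsq] at h1
  have h2 : (X i i - X j j) * (X i i - X j j) = 0 := by linear_combination h1
  exact sub_eq_zero.1 (mul_self_eq_zero.1 h2)

lemma no_abelian_atom (I : LieIdeal ℝ su21) (hI : IsAtom I) : ¬ IsLieAbelian I := by
  intro hab
  apply hI.1
  rw [LieSubmodule.eq_bot_iff]
  intro x hx
  have h1 : ∀ y : su21, ⁅x, ⁅x, y⁆⁆ = 0 := by
    intro y
    have hxy : ⁅x, y⁆ ∈ I := lie_mem_left ℝ su21 I x y hx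
    have h2 := hab.trivial (⟨x, hx⟩ : I) ⟨⁅x, y⁆, hxy⟩
    have h3 := congrArg (fun t : I => (t : su21)) h2
    simpa using h3
  have h2 : ∀ Y ∈ su21, (x : Matrix (Fin 3) (Fin 3) ℂ) * ((x : Matrix (Fin 3) (Fin 3) ℂ) * Y
      - Y * (x : Matrix (Fin 3) (Fin 3) ℂ)) - ((x : Matrix (Fin 3) (Fin 3) ℂ) * Y
      - Y * (x : Matrix (Fin 3) (Fin 3) ℂ)) * (x : Matrix (Fin 3) (Fin 3) ℂ) = 0 := by
    intro Y hY
    have h3 := congrArg (fun t : su21 => (t : Matrix (Fin 3) (Fin 3) ℂ)) (h1 ⟨Y, hY⟩)
    simpa [LieSubalgebra.coe_bracket, Ring.lie_def] using h3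
  obtain ⟨h3, h4⟩ := scalar_of_double (double_bracket h2)
  have htr : (x : Matrix (Fin 3) (Fin 3) ℂ).trace = 0 := x.2.2
  have h5 : ∀ i, (x : Matrix (Fin 3) (Fin 3) ℂ) i i = 0 := by
    intro i
    rw [Matrix.trace] at htr
    simp only [Matrix.diag_apply] at htr
    rw [Finset.sum_congr rfl (fun j _ => h4 j i)] at htr
    simpa using htr
  apply Subtype.ext
  ext i j
  by_cases hij : i = j
  · subst hij
    simpa using h5 i
  · simpa using h3 i j hij

instance : LieAlgebra.IsSemisimple ℝ su21 :=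
  LieAlgebra.InvariantForm.isSemisimple_of_nondegenerate form form_nondeg form_inv form_refl
    no_abelian_atom

/-- The element `i * diag(1, 1, -2)` of `su(2,1)`. -/
noncomputable def z : su21 :=
  ⟨Matrix.diagonal ![Complex.I, Complex.I, -2 * Complex.I], by
    constructor
    · unfold J
      rw [Matrix.diagonal_conjTranspose, Matrix.diagonal_mul_diagonal,
        Matrix.diagonal_mul_diagonal, Matrix.diagonal_add, ← Matrix.diagonal_zero]
      congr 1
      funext i
      fin_cases i <;> simp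
    · simp [Matrix.trace, Fin.sum_univ_three]
      ring⟩

lemma z_coe : (z : Matrix (Fin 3) (Fin 3) ℂ) =
    Matrix.diagonal ![Complex.I, Complex.I, -2 * Complex.I] := rfl

theorem z_not_bracket (x y : su21) : ⁅x, y⁆ ≠ z := by
  intro h
  obtain ⟨X, hX⟩ := x
  obtain ⟨Y, hY⟩ := y
  have h1 : X * Y - Y * X = Matrix.diagonal ![Complex.I, Complex.I, -2 * Complex.I] := by
    have h2 := congrArg (fun t : su21 => (t : Matrix (Fin 3) (Fin 3) ℂ)) h
    simpa [LieSubalgebra.coe_bracket, Ring.lie_def, z_coe] using h2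
  have t1 : (Matrix.diagonal ![Complex.I, Complex.I, -2 * Complex.I] * X).trace = 0 := by
    rw [← h1, sub_mul, Matrix.trace_sub, Matrix.mul_assoc, Matrix.mul_assoc,
      Matrix.trace_mul_comm X (Y * X), Matrix.mul_assoc, sub_self]
  have t2 : (Matrix.diagonal ![Complex.I, Complex.I, -2 * Complex.I] * (X * X)).trace = 0 := by
    rw [← h1, sub_mul, Matrix.trace_sub, Matrix.mul_assoc, Matrix.mul_assoc,
      Matrix.trace_mul_comm X (Y * (X * X)), Matrix.mul_assoc, Matrix.mul_assoc, sub_self]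
  obtain ⟨hX1, hX2⟩ := hX
  have hc : ∀ i j, star (X j i) * (![1, 1, -1] : Fin 3 → ℂ) j +
      (![1, 1, -1] : Fin 3 → ℂ) i * X i j = 0 := by
    intro i j
    have h3 := congrFun (congrFun hX1 i) j
    unfold J at h3
    rw [Matrix.add_apply, Matrix.mul_diagonal, Matrix.diagonal_mul] at h3
    simpa using h3
  have c00 := hc 0 0
  have c01 := hc 0 1
  have c02 := hc 0 2
  have c11 := hc 1 1
  have c12 := hc 1 2
  have c22 := hc 2 2
  simp at c00 c01 c02 c11 c12 c22
  simp [Matrix.trace, Fin.sum_univ_three, Matrix.mul_apply, Matrix.diagonal_apply] at t1 t2 hX2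
  have hI := Complex.I_ne_zero
  have s1 : X 0 0 + X 1 1 - 2 * X 2 2 = 0 := by
    apply (mul_eq_zero.1 (?_ : Complex.I * (X 0 0 + X 1 1 - 2 * X 2 2) = 0)).resolve_left hI
    linear_combination t1
  have s22 : X 2 2 = 0 := by linear_combination (1/3) * hX2 - (1/3) * s1
  have s2 : X 0 0 * X 0 0 + X 1 1 * X 1 1 + 2 * (X 0 1 * X 1 0) - X 0 2 * X 2 0
      - X 1 2 * X 2 1 = 0 := by
    apply (mul_eq_zero.1 (?_ : Complex.I * (X 0 0 * X 0 0 + X 1 1 * X 1 1
      + 2 * (X 0 1 * X 1 0) - X 0 2 * X 2 0 - X 1 2 * X 2 1) = 0)).resolve_left hI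
    rw [s22] at t2
    linear_combination t2
  have d00 : X 0 0 * X 0 0 = -(Complex.normSq (X 0 0) : ℂ) := by
    rw [← Complex.mul_conj]
    linear_combination X 0 0 * c00
  have d11 : X 1 1 * X 1 1 = -(Complex.normSq (X 1 1) : ℂ) := by
    rw [← Complex.mul_conj]
    linear_combination X 1 1 * c11
  have d01 : X 0 1 * X 1 0 = -(Complex.normSq (X 1 0) : ℂ) := by
    rw [← Complex.mul_conj]
    linear_combination X 1 0 * c01
  have d02 : X 0 2 * X 2 0 = (Complex.normSq (X 2 0) : ℂ) := by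
    rw [← Complex.mul_conj]
    linear_combination X 2 0 * c02
  have d12 : X 1 2 * X 2 1 = (Complex.normSq (X 2 1) : ℂ) := by
    rw [← Complex.mul_conj]
    linear_combination X 2 1 * c12
  rw [d00, d11, d01, d02, d12] at s2
  have s3 : Complex.normSq (X 0 0) + Complex.normSq (X 1 1) + 2 * Complex.normSq (X 1 0)
      + Complex.normSq (X 2 0) + Complex.normSq (X 2 1) = 0 := by
    have : (((Complex.normSq (X 0 0) + Complex.normSq (X 1 1) + 2 * Complex.normSq (X 1 0)
      + Complex.normSq (X 2 0) + Complex.normSq (X 2 1) : ℝ)) : ℂ) = 0 := by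
      push_cast
      linear_combination -s2
    exact_mod_cast this
  have n1 := Complex.normSq_nonneg (X 0 0)
  have n2 := Complex.normSq_nonneg (X 1 1)
  have n3 := Complex.normSq_nonneg (X 1 0)
  have n4 := Complex.normSq_nonneg (X 2 0)
  have n5 := Complex.normSq_nonneg (X 2 1)
  have z00 : X 0 0 = 0 := Complex.normSq_eq_zero.1 (by linarith)
  have z10 : X 1 0 = 0 := Complex.normSq_eq_zero.1 (by linarith)
  have z20 : X 2 0 = 0 := Complex.normSq_eq_zero.1 (by linarith)
  rw [z10] at c01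
  rw [z20] at c02
  simp at c01 c02
  have h3 := congrFun (congrFun h1 0) 0
  simp [Matrix.mul_apply, Fin.sum_univ_three, z00, z10, z20, c01, c02] at h3
  exact hI h3.symm

end Pool.Agent.Work.MP_61cc98_al
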